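import Mathlib

/-!
# Differences of nearby terms of a sequence in an elementary abelian 2-group

Let `a 0, …, a (n-1)` be a sequence in an `𝔽₂`-vector space such that terms at distance at most `ℓ`
are distinct, and let it have more than `2 ^ (m - 1)` distinct terms.  Then the set
`D = {a i + a j : 1 ≤ |i - j| ≤ ℓ}` has at least `∑_{k=1}^{m} min ℓ 2^(k-1)` elements.
-/

namespace Q116.PP

open Finset

open scoped Classical in
/-- The differences of terms at distance at most `ℓ`. -/
noncomputable def D {Q : Type*} [AddCommGroup Q] (n l : ℕ) (a : ℕ → Q) : Finset Q :=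
  ((range n ×ˢ range n).filter (fun p => p.1 < p.2 ∧ p.2 ≤ p.1 + l)).image
    (fun p => a p.1 + a p.2)

/-- `F l m = ∑_{k=1}^{m} min l 2^(k-1)`. -/
def F (l m : ℕ) : ℕ := ∑ k ∈ range m, min l (2 ^ k)

lemma F_succ (l m : ℕ) : F l (m + 1) = F l m + min l (2 ^ m) := by
  simp [F, sum_range_succ]

lemma F_mono (l : ℕ) {m m' : ℕ} (h : m ≤ m') : F l m ≤ F l m' := by
  unfold F
  exact sum_le_sum_of_subset (range_mono h)

lemma F_le (l m : ℕ) : F l m + 1 ≤ 2 ^ m := by
  induction m with
  | zero => simp [F]
  | succ m ih =>
    rw [F_succ, pow_succ]
    have := min_le_right l (2 ^ m)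
    omega

lemma mem_D {Q : Type*} [AddCommGroup Q] {n l : ℕ} {a : ℕ → Q} {x : Q} :
    x ∈ D n l a ↔ ∃ i j, i < j ∧ j < n ∧ j ≤ i + l ∧ a i + a j = x := by
  classical
  unfold D
  simp only [mem_image, mem_filter, mem_product, mem_range, Prod.exists]
  constructor
  · rintro ⟨i, j, ⟨⟨-, hj⟩, hij, hl⟩, rfl⟩
    exact ⟨i, j, hij, hj, hl, rfl⟩
  · rintro ⟨i, j, hij, hj, hl, rfl⟩
    exact ⟨i, j, ⟨⟨by omega, hj⟩, hij, hl⟩, rfl⟩

/-- In an elementary abelian 2-group `x + x = 0`. -/
lemma add_self {Q : Type*} [AddCommGroup Q] [Module (ZMod 2) Q] (x : Q) : x + x = 0 := by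
  have h : ((1 : ZMod 2) + 1) • x = 0 := by
    have : (1 : ZMod 2) + 1 = 0 := by decide
    rw [this, zero_smul]
  rwa [add_smul, one_smul] at h

lemma D_map {Q R : Type*} [AddCommGroup Q] [AddCommGroup R] (n l : ℕ) (a : ℕ → Q)
    (f : Q →+ R) [DecidableEq R] : D n l (fun i => f (a i)) = (D n l a).image f := by
  classical
  ext x
  rw [mem_D]
  simp only [mem_image, mem_D]
  constructor
  · rintro ⟨i, j, hij, hj, hl, rfl⟩
    exact ⟨a i + a j, ⟨i, j, hij, hj, hl, rfl⟩, by simp⟩
  · rintro ⟨-, ⟨i, j, hij, hj, hl, rfl⟩, rfl⟩
    exact ⟨i, j, hij, hj, hl, by simp⟩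

section quot

variable {Q : Type*} [AddCommGroup Q] [Module (ZMod 2) Q]

lemma mk_eq_iff (w x y : Q) :
    (Submodule.span (ZMod 2) {w}).mkQ x = (Submodule.span (ZMod 2) {w}).mkQ y ↔
      x = y ∨ x = y + w := by
  rw [← sub_eq_zero, ← map_sub, ← LinearMap.mem_ker, Submodule.ker_mkQ,
    Submodule.mem_span_singleton]
  constructor
  · rintro ⟨c, hc⟩
    have hc2 : c = 0 ∨ c = 1 := by
      revert c
      intro c _
      fin_cases c
      · left; rfl
      · right; rfl
    rcases hc2 with rfl | rfl
    · left
      rw [zero_smul] at hc
      exact sub_eq_zero.mp hc.symm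
    · right
      rw [one_smul] at hc
      rw [hc]; abel
  · rintro (h | h)
    · exact ⟨0, by rw [h]; simp⟩
    · exact ⟨1, by rw [h]; simp⟩

lemma card_quot [Finite Q] (w : Q) (hw : w ≠ 0) :
    Nat.card (Q ⧸ Submodule.span (ZMod 2) {w}) * 2 = Nat.card Q := by
  have h := Submodule.card_eq_card_quotient_mul_card (Submodule.span (ZMod 2) {w})
  have h2 : Nat.card (Submodule.span (ZMod 2) {w}) = 2 := by
    rw [Nat.card_congr (LinearEquiv.toSpanNonzeroSingleton (ZMod 2) Q w hw).symm.toEquiv]
    simp
  rw [h, h2]
  ring

lemma card_pow [Finite Q] : ∃ d : ℕ, Nat.card Q = 2 ^ d := by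
  refine ⟨Module.finrank (ZMod 2) Q, ?_⟩
  rw [Module.natCard_eq_pow_finrank (K := ZMod 2)]
  simp

end quot

open scoped Classical in
/-- The induction step: dividing out a vector `w` outside `D`. -/
lemma step {Q : Type*} [AddCommGroup Q] [Module (ZMod 2) Q] (n l : ℕ) (a : ℕ → Q) (w : Q)
    (hw : w ∉ D n l a)
    (hinj : ∀ i j, i < j → j < n → j ≤ i + l → a i ≠ a j) (i j : ℕ) (hij : i < j) (hj : j < n)
    (hjl : j ≤ i + l) :
    (Submodule.span (ZMod 2) {w}).mkQ (a i) ≠ (Submodule.span (ZMod 2) {w}).mkQ (a j) := by
  intro h
  rw [mk_eq_iff] at h
  rcases h with h | h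
  · exact hinj i j hij hj hjl h
  · apply hw
    rw [mem_D]
    refine ⟨i, j, hij, hj, hjl, ?_⟩
    rw [h]
    have := add_self (a j)
    calc a j + w + a j = (a j + a j) + w := by abel
      _ = w := by rw [this, zero_add]

/-- **Main inequality.** -/
theorem main : ∀ (N : ℕ) (Q : Type*) [AddCommGroup Q] [Module (ZMod 2) Q] [Finite Q]
    (n l m : ℕ) (a : ℕ → Q), Nat.card Q ≤ N →
    (∀ i j, i < j → j < n → j ≤ i + l → a i ≠ a j) →
    (∀ S : Finset Q, (∀ i < n, a i ∈ S) → 2 ^ m < 2 * S.card) →
    F l m ≤ (D n l a).card := by
  intro N
  induction N with
  | zero =>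
    intro Q _ _ _ n l m a hc
    have := Nat.card_pos (α := Q)
    omega
  | succ N ih =>
    intro Q _ _ _ n l m a hc hinj hS
    classical
    haveI : Fintype Q := Fintype.ofFinite Q
    by_cases hD : ∀ w : Q, w ≠ 0 → w ∈ D n l a
    · -- `D` is everything
      have h1 : (univ : Finset Q).card ≤ (D n l a).card + 1 := by
        have : (univ : Finset Q) ⊆ insert 0 (D n l a) := by
          intro w _
          by_cases hw : w = 0
          · simp [hw]
          · exact mem_insert_of_mem (hD w hw)
        exact (card_le_card this).trans (card_insert_le _ _)
      have h2 := hS univ (fun _ _ => mem_univ _)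
      obtain ⟨d, hd⟩ := card_pow (Q := Q)
      rw [Nat.card_eq_fintype_card] at hd
      rw [card_univ, hd] at h1 h2
      have h3 : m ≤ d := by
        by_contra hlt
        have : 2 ^ (d + 1) ≤ 2 ^ m := Nat.pow_le_pow_right (by norm_num) (by omega)
        rw [pow_succ] at this
        omega
      have h4 : 2 ^ m ≤ 2 ^ d := Nat.pow_le_pow_right (by norm_num) h3
      have := F_le l m
      omega
    push Not at hD
    obtain ⟨w₀, hw₀, hw₀D⟩ := hD
    by_cases hA : ∃ i j, i < n ∧ j < n ∧ a i + a j = w₀
    · -- choose a difference outside `D` of least distance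
      have hex : ∃ L : ℕ, ∃ i, i + L < n ∧ a i + a (i + L) ≠ 0 ∧ a i + a (i + L) ∉ D n l a := by
        obtain ⟨i, j, hi, hj, hw⟩ := hA
        rcases le_total i j with h | h
        · refine ⟨j - i, i, by omega, ?_, ?_⟩ <;>
          · have : i + (j - i) = j := by omega
            rw [this, hw]; assumption
        · refine ⟨i - j, j, by omega, ?_, ?_⟩ <;>
          · have : j + (i - j) = i := by omega
            rw [this, add_comm, hw]; assumption
      obtain ⟨i, hin, hne, hnD⟩ := Nat.find_spec hex
      set L := Nat.find hex with hL
      have hmin : ∀ s t, s < t → t < n → t - s < L → a s + a t ≠ 0 → a s + a t ∈ D n l a := by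
        intro s t hst htn hlt h0
        by_contra hnot
        refine Nat.find_min hex hlt ⟨s, ?_, ?_, ?_⟩
        · omega
        · have : s + (t - s) = t := by omega
          rw [this]; exact h0
        · have : s + (t - s) = t := by omega
          rw [this]; exact hnot
      set w := a i + a (i + L) with hw
      have hlL : l < L := by
        by_contra hle
        apply hnD
        rw [mem_D]
        refine ⟨i, i + L, ?_, hin, by omega, rfl⟩
        by_contra h0
        have hL0 : L = 0 := by omega
        apply hne
        rw [hw, hL0, add_zero, add_self]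
      -- the set `E`
      set E : Finset Q := (Ioc i (i + l)).image (fun s => a s + a (i + L)) with hE
      have hEcard : E.card = l := by
        rw [hE, card_image_of_injOn]
        · simp
        · intro s hs t ht hst
          simp only [coe_Ioc, Set.mem_Ioc] at hs ht
          have hst' : a s = a t := add_right_cancel hst
          by_contra hne'
          rcases lt_or_gt_of_ne hne' with h | h
          · exact hinj s t h (by omega) (by omega) hst'
          · exact hinj t s h (by omega) (by omega) hst'.symm
      have hshift : ∀ s, a i + a s = (a s + a (i + L)) + w := by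
        intro s
        rw [hw]
        have := add_self (a (i + L))
        calc a i + a s = a i + a s + 0 := by abel
          _ = a i + a s + (a (i + L) + a (i + L)) := by rw [this]
          _ = _ := by abel
      have hED : E ⊆ D n l a := by
        intro x hx
        rw [hE, mem_image] at hx
        obtain ⟨s, hs, rfl⟩ := hx
        rw [mem_Ioc] at hs
        apply hmin s (i + L) (by omega) hin (by omega)
        intro h0
        apply hnD
        rw [mem_D]
        refine ⟨i, s, by omega, by omega, by omega, ?_⟩
        rw [hshift s, h0, zero_add]
      -- division by `w`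
      set π := (Submodule.span (ZMod 2) {w}).mkQ with hπ
      have hDimg : D n l (fun i => π (a i)) = (D n l a).image π := D_map n l a π.toAddMonoidHom
      have hDE : (D n l a).image π = (D n l a \ E).image π := by
        apply subset_antisymm
        · intro x hx
          rw [mem_image] at hx ⊢
          obtain ⟨y, hy, rfl⟩ := hx
          by_cases hyE : y ∈ E
          · rw [hE, mem_image] at hyE
            obtain ⟨s, hs, rfl⟩ := hyE
            rw [mem_Ioc] at hs
            refine ⟨a i + a s, ?_, ?_⟩
            · rw [mem_sdiff]
              constructor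
              · rw [mem_D]
                exact ⟨i, s, by omega, by omega, by omega, rfl⟩
              · intro hmem
                rw [hE, mem_image] at hmem
                obtain ⟨t, ht, hts⟩ := hmem
                rw [mem_Ioc] at ht
                -- `a s + a t = w`
                have h1 : a t + a s = w := by
                  have e := hts
                  have h2 := add_self (a (i + L))
                  have h3 := add_self (a s)
                  calc a t + a s = (a t + a (i + L)) + a (i + L) + a s := by
                        rw [add_assoc (a t), h2, add_zero]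
                    _ = (a i + a s) + a (i + L) + a s := by rw [e]
                    _ = a i + a (i + L) + (a s + a s) := by abel
                    _ = w := by rw [h3, add_zero]
                rcases lt_trichotomy t s with h | h | h
                · apply hnD
                  rw [mem_D]
                  exact ⟨t, s, h, by omega, by omega, h1⟩
                · rw [h, add_self] at h1
                  exact hne h1.symm
                · apply hnD
                  rw [mem_D]
                  exact ⟨s, t, h, by omega, by omega, by rw [add_comm]; exact h1⟩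
            · rw [hπ, mk_eq_iff]
              right
              exact hshift s
          · exact ⟨y, by rw [mem_sdiff]; exact ⟨hy, hyE⟩, rfl⟩
        · exact image_subset_image sdiff_subset
      have hcard : (D n l (fun i => π (a i))).card + l ≤ (D n l a).card := by
        rw [hDimg, hDE]
        have h1 := card_image_le (s := D n l a \ E) (f := π)
        have h2 := card_sdiff_add_card_eq_card hED
        omega
      cases m with
      | zero => simp [F]
      | succ m =>
        have hq := card_quot w hne
        have hpos := Nat.card_pos (α := Q ⧸ Submodule.span (ZMod 2) {w})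
        have := ih (Q ⧸ Submodule.span (ZMod 2) {w}) n l m (fun i => π (a i)) (by omega)
          (step n l a w hnD hinj) ?_
        · rw [F_succ]
          have h5 := min_le_left l (2 ^ m)
          omega
        · intro S hSS
          -- preimage of `S`
          have h6 := hS (univ.filter (fun x => π x ∈ S)) (by
            intro i hi
            rw [mem_filter]
            exact ⟨mem_univ _, hSS i hi⟩)
          have h7 : (univ.filter (fun x => π x ∈ S)).card ≤ 2 * S.card := by
            apply card_le_mul_card_image_of_maps_to (f := π)
            · intro x hx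
              exact (mem_filter.mp hx).2
            · intro b hb
              obtain ⟨y, hy⟩ := Submodule.mkQ_surjective (Submodule.span (ZMod 2) {w}) b
              have : (univ.filter (fun x => π x ∈ S)).filter (fun x => π x = b) ⊆ {y, y + w} := by
                intro x hx
                rw [mem_filter] at hx
                have h8 := hx.2
                rw [← hy, hπ, mk_eq_iff] at h8
                simpa using h8
              exact (card_le_card this).trans card_le_two
          rw [pow_succ] at h6
          omega
    · -- `w₀` is not a difference at all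
      push Not at hA
      set π := (Submodule.span (ZMod 2) {w₀}).mkQ with hπ
      have hDimg : D n l (fun i => π (a i)) = (D n l a).image π := D_map n l a π.toAddMonoidHom
      have hcard : (D n l (fun i => π (a i))).card ≤ (D n l a).card := by
        rw [hDimg]; exact card_image_le
      have hq := card_quot w₀ hw₀
      have hpos := Nat.card_pos (α := Q ⧸ Submodule.span (ZMod 2) {w₀})
      have := ih (Q ⧸ Submodule.span (ZMod 2) {w₀}) n l m (fun i => π (a i)) (by omega)
        (step n l a w₀ hw₀D hinj) ?_
      · omega
      · intro S hSS
        have h6 := hS ((range n).image a) (by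
          intro i hi
          exact mem_image_of_mem _ (mem_range.mpr hi))
        have h7 : ((range n).image a).card ≤ S.card := by
          apply card_le_card_of_injOn π
          · intro x hx
            simp only [coe_image, Set.mem_image, coe_range, Set.mem_Iio] at hx
            obtain ⟨i, hi, rfl⟩ := hx
            exact hSS i hi
          · intro x hx y hy hxy
            simp only [coe_image, Set.mem_image, coe_range, Set.mem_Iio] at hx hy
            obtain ⟨i, hi, rfl⟩ := hx
            obtain ⟨j, hj, rfl⟩ := hy
            rw [hπ, mk_eq_iff] at hxy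
            rcases hxy with h | h
            · exact h
            · exfalso
              apply hA i j hi hj
              rw [h]
              have := add_self (a j)
              calc a j + w₀ + a j = (a j + a j) + w₀ := by abel
                _ = w₀ := by rw [this, zero_add]
        omega

end Q116.PP
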