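import Mathlib
import Pool.Agent.Q116.PP.Low

/-!
# The Gray code

`g i = ∑_{t=1}^{i} e_{c_t}` with `c_t = 1 + ν₂(t)` is additive for `xor`, injective, and the number
of vectors `g i + g j` with `i < j < n`, `j ≤ i + ℓ` is at most `∑_{k=1}^{⌈lg n⌉} min ℓ 2^(k-1)`.
-/

namespace Q116.PP

open Finset

/-- `c_t = 1 + ν₂(t)`. -/
noncomputable def grayIndex (t : ℕ) : ℕ := 1 + padicValNat 2 t

/-- `g i = ∑_{t=1}^{i} e_{c_t}`. -/
noncomputable def gray (i : ℕ) : ℕ →₀ ZMod 2 :=
  ∑ t ∈ Icc 1 i, Finsupp.single (grayIndex t) 1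

lemma gray_zero : gray 0 = 0 := by simp [gray]

lemma gray_succ (i : ℕ) : gray (i + 1) = gray i + Finsupp.single (grayIndex (i + 1)) 1 := by
  unfold gray
  rw [sum_Icc_succ_top (by omega)]

lemma grayIndex_odd (i : ℕ) : grayIndex (2 * i + 1) = 1 := by
  unfold grayIndex
  rw [padicValNat.eq_zero_of_not_dvd (by omega)]

lemma grayIndex_even (i : ℕ) : grayIndex (2 * (i + 1)) = grayIndex (i + 1) + 1 := by
  unfold grayIndex
  rw [padicValNat.mul (by norm_num) (by omega)]
  simp
  ring

lemma gray_two_mul (i : ℕ) :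
    gray (2 * i) = (i : ZMod 2) • Finsupp.single 1 1 + (gray i).mapDomain (· + 1) := by
  induction i with
  | zero => simp [gray_zero]
  | succ i ih =>
    have h : 2 * (i + 1) = (2 * i + 1) + 1 := by ring
    rw [h, gray_succ, gray_succ, ih, grayIndex_odd, gray_succ i, Finsupp.mapDomain_add,
      Finsupp.mapDomain_single, ← grayIndex_even i, ← h]
    push_cast
    rw [add_smul, one_smul]
    abel

lemma gray_two_mul_add_one (i : ℕ) :
    gray (2 * i + 1) = ((i : ZMod 2) + 1) • Finsupp.single 1 1 + (gray i).mapDomain (· + 1) := by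
  rw [gray_succ, gray_two_mul, grayIndex_odd, add_smul, one_smul]
  abel

lemma gray_bit (x : ℕ) :
    gray x = (((x / 2 + x % 2 : ℕ)) : ZMod 2) • Finsupp.single 1 1 +
      (gray (x / 2)).mapDomain (· + 1) := by
  rcases Nat.mod_two_eq_zero_or_one x with h | h
  · have hx : x = 2 * (x / 2) := by omega
    rw [h, add_zero]
    conv_lhs => rw [hx]
    exact gray_two_mul _
  · have hx : x = 2 * (x / 2) + 1 := by omega
    rw [h]
    push_cast
    conv_lhs => rw [hx]
    exact gray_two_mul_add_one _

lemma natCast_eq_of_mod {a b : ℕ} (h : a % 2 = b % 2) : (a : ZMod 2) = (b : ZMod 2) :=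
  (ZMod.natCast_eq_natCast_iff' a b 2).mpr h

lemma gray_xor : ∀ N x y : ℕ, x + y ≤ N → gray (x ^^^ y) = gray x + gray y := by
  intro N
  induction N with
  | zero =>
    intro x y h
    have hx : x = 0 := by omega
    have hy : y = 0 := by omega
    subst hx hy
    simp [gray_zero]
  | succ N ih =>
    intro x y h
    by_cases h0 : x + y = 0
    · exact ih x y (by omega)
    rw [gray_bit (x ^^^ y), gray_bit x, gray_bit y, Nat.xor_div_two, ih _ _ (by omega),
      Finsupp.mapDomain_add]
    have : ((((x / 2) ^^^ (y / 2)) + (x ^^^ y) % 2 : ℕ) : ZMod 2) =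
        ((x / 2 + x % 2 : ℕ) : ZMod 2) + ((y / 2 + y % 2 : ℕ) : ZMod 2) := by
      rw [← Nat.cast_add]
      apply natCast_eq_of_mod
      have h1 := Nat.xor_mod_two_eq (m := x / 2) (n := y / 2)
      have h2 := Nat.xor_mod_two_eq (m := x) (n := y)
      omega
    rw [this, add_smul]
    abel

lemma gray_eq_zero : ∀ N x : ℕ, x ≤ N → gray x = 0 → x = 0 := by
  intro N
  induction N with
  | zero => intro x hx _; omega
  | succ N ih =>
    intro x hx h
    by_contra hne
    rw [gray_bit] at h
    have h2 : gray (x / 2) = 0 := by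
      ext s
      have := DFunLike.congr_fun h (s + 1)
      rw [Finsupp.add_apply, Finsupp.smul_apply, Finsupp.zero_apply] at this
      have hinj : Function.Injective (fun t : ℕ => t + 1) := fun a b h => Nat.succ_injective h
      rw [show s + 1 = (fun t : ℕ => t + 1) s from rfl,
        Finsupp.mapDomain_apply hinj] at this
      rw [Finsupp.zero_apply]
      by_cases hs : s = 0
      · subst hs
        -- the coordinate `0` of `gray` vanishes
        unfold gray
        rw [Finsupp.finset_sum_apply]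
        apply sum_eq_zero
        intro t _
        rw [Finsupp.single_apply, if_neg]
        unfold grayIndex
        omega
      · rw [Finsupp.single_apply, if_neg (by simp; omega)] at this
        simpa using this
    have h3 : x / 2 = 0 := ih _ (by omega) h2
    rw [h3, gray_zero] at h
    have h4 : x % 2 = 1 := by omega
    rw [h4] at h
    have := DFunLike.congr_fun h 1
    simp at this

lemma gray_injective : Function.Injective gray := by
  intro x y h
  have h1 : gray (x ^^^ y) = 0 := by
    rw [gray_xor _ x y le_rfl, h, add_self]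
  have h2 := gray_eq_zero _ _ le_rfl h1
  exact Nat.xor_eq_zero_iff.mp h2

lemma xor_gap : ∀ k i j : ℕ, i < j → 2 ^ k ≤ i ^^^ j → i ^^^ j < 2 ^ (k + 1) →
    2 ^ (k + 1) + i ≤ (i ^^^ j) + j := by
  intro k
  induction k with
  | zero =>
    intro i j hij h1 h2
    simp only [pow_zero, zero_add, pow_one] at h1 h2 ⊢
    have : i ^^^ j = 1 := by omega
    omega
  | succ k ih =>
    intro i j hij h1 h2
    have e1 := Nat.xor_div_two (a := i) (b := j)
    have e2 := Nat.xor_mod_two_eq (m := i) (n := j)
    have e3 : 2 ^ (k + 1) = 2 * 2 ^ k := by ring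
    have e4 : 2 ^ (k + 1 + 1) = 2 * 2 ^ (k + 1) := by ring
    have hpos : 0 < 2 ^ k := by positivity
    have h3 : 2 ^ k ≤ (i / 2) ^^^ (j / 2) := by rw [← e1]; omega
    have h4 : (i / 2) ^^^ (j / 2) < 2 ^ (k + 1) := by rw [← e1]; omega
    have h5 : i / 2 < j / 2 := by
      rcases lt_trichotomy (i / 2) (j / 2) with h | h | h
      · exact h
      · rw [h, Nat.xor_self] at h3
        omega
      · omega
    have := ih _ _ h5 h3 h4
    omega

/-- The differences of the Gray code. -/
lemma card_D_gray (n l : ℕ) : (D n l gray).card ≤ F l (Nat.clog 2 n) := by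
  classical
  have hsub : D n l gray ⊆
      ((range (Nat.clog 2 n)).biUnion (fun k => Ico (max (2 ^ k) (2 ^ (k + 1) - l)) (2 ^ (k + 1)))).image
        gray := by
    intro x hx
    rw [mem_D] at hx
    obtain ⟨i, j, hij, hj, hl, rfl⟩ := hx
    rw [mem_image]
    refine ⟨i ^^^ j, ?_, gray_xor _ i j le_rfl⟩
    have hn : n ≤ 2 ^ (Nat.clog 2 n) := Nat.le_pow_clog (by norm_num) n
    have hne : i ^^^ j ≠ 0 := by
      intro h
      rw [Nat.xor_eq_zero_iff] at h
      omega
    have hlt : i ^^^ j < 2 ^ (Nat.clog 2 n) := Nat.xor_lt_two_pow (by omega) (by omega)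
    rw [mem_biUnion]
    have h1 : 2 ^ (Nat.log 2 (i ^^^ j)) ≤ i ^^^ j := Nat.pow_log_le_self 2 hne
    have h2 : i ^^^ j < 2 ^ (Nat.log 2 (i ^^^ j) + 1) := Nat.lt_pow_succ_log_self (by norm_num) _
    refine ⟨Nat.log 2 (i ^^^ j), ?_, ?_⟩
    · rw [mem_range]
      exact Nat.log_lt_of_lt_pow hne hlt
    · rw [mem_Ico]
      have := xor_gap _ i j hij h1 h2
      refine ⟨?_, h2⟩
      apply max_le h1
      omega
  refine (card_le_card hsub).trans (card_image_le.trans (card_biUnion_le.trans ?_))
  unfold F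
  apply sum_le_sum
  intro k _
  rw [Nat.card_Ico]
  have : 2 ^ (k + 1) = 2 * 2 ^ k := by ring
  omega

end Q116.PP
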