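import Mathlib
import Pool.Agent.Q116.PP.Low
import Pool.Agent.Q116.PP.Gray

/-!
# Strong parity edge-colourings of path powers
-/

namespace Q116.PP

open Finset

/-- The main inequality without finiteness of the group. -/
theorem main' (Q : Type*) [AddCommGroup Q] [Module (ZMod 2) Q] (n l m : ℕ) (a : ℕ → Q)
    (hinj : ∀ i j, i < j → j < n → j ≤ i + l → a i ≠ a j)
    (hS : ∀ S : Finset Q, (∀ i < n, a i ∈ S) → 2 ^ m < 2 * S.card) :
    F l m ≤ (D n l a).card := by
  classical
  set W : Submodule (ZMod 2) Q := Submodule.span (ZMod 2) (↑((range n).image a)) with hW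
  haveI : Module.Finite (ZMod 2) W := Module.Finite.span_finset (ZMod 2) _
  haveI : Finite W := Module.finite_of_finite (ZMod 2)
  have hmem : ∀ i, i < n → a i ∈ W := by
    intro i hi
    apply Submodule.subset_span
    rw [coe_image]
    exact ⟨i, by simpa using hi, rfl⟩
  let b : ℕ → W := fun i => if h : i < n then ⟨a i, hmem i h⟩ else 0
  have hb : ∀ i, i < n → (b i : Q) = a i := by
    intro i hi
    simp only [b, dif_pos hi]
  have h := main (Nat.card W) W n l m b le_rfl ?_ ?_
  · refine h.trans ?_
    rw [← card_image_of_injective (D n l b) Subtype.val_injective]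
    apply card_le_card
    intro x hx
    rw [mem_image] at hx
    obtain ⟨y, hy, rfl⟩ := hx
    rw [mem_D] at hy
    obtain ⟨i, j, hij, hj, hl, rfl⟩ := hy
    rw [mem_D]
    refine ⟨i, j, hij, hj, hl, ?_⟩
    rw [Submodule.coe_add, hb i (by omega), hb j hj]
  · intro i j hij hj hl heq
    apply hinj i j hij hj hl
    rw [← hb i (by omega), ← hb j hj, heq]
  · intro S hSS
    rw [← card_image_of_injective S Subtype.val_injective]
    apply hS
    intro i hi
    rw [mem_image]
    exact ⟨b i, hSS i hi, hb i hi⟩

section walks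

variable {V C : Type*} {G : SimpleGraph V}

open scoped Classical in
/-- A *parity walk*: every colour occurs an even number of times along it. -/
def ParityWalk (c : Sym2 V → C) {u v : V} (p : G.Walk u v) : Prop :=
  ∀ x : C, Even ((p.edges.map c).count x)

/-- A *strong parity edge-colouring* (spec): no open parity walk. -/
def IsSpec (G : SimpleGraph V) (c : Sym2 V → C) : Prop :=
  ∀ (u v : V) (p : G.Walk u v), ParityWalk c p → u = v

/-- The number of colours used on the edges of `G`. -/
noncomputable def numColours (G : SimpleGraph V) (c : Sym2 V → C) : ℕ :=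
  (c '' G.edgeSet).ncard

/-- The parity vector of a walk. -/
noncomputable def par (c : Sym2 V → C) {u v : V} (p : G.Walk u v) : C →₀ ZMod 2 :=
  ((p.edges.map c).map (fun x => Finsupp.single x (1 : ZMod 2))).sum

lemma sum_single_apply [DecidableEq C] (L : List C) (x : C) :
    ((L.map (fun x => Finsupp.single x (1 : ZMod 2))).sum : C →₀ ZMod 2) x =
      ((L.count x : ℕ) : ZMod 2) := by
  classical
  induction L with
  | nil => simp
  | cons y L ih =>
    rw [List.map_cons, List.sum_cons, Finsupp.add_apply, ih, List.count_cons,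
      Finsupp.single_apply]
    by_cases h : y = x
    · subst h; simp; ring
    · simp [h]

lemma parityWalk_iff (c : Sym2 V → C) {u v : V} (p : G.Walk u v) :
    ParityWalk c p ↔ par c p = 0 := by
  classical
  unfold ParityWalk par
  constructor
  · intro h
    ext x
    rw [sum_single_apply, Finsupp.zero_apply, ZMod.natCast_eq_zero_iff_even]
    exact h x
  · intro h x
    have := DFunLike.congr_fun h x
    rw [sum_single_apply, Finsupp.zero_apply, ZMod.natCast_eq_zero_iff_even] at this
    exact this

lemma par_append (c : Sym2 V → C) {u v w : V} (p : G.Walk u v) (q : G.Walk v w) :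
    par c (p.append q) = par c p + par c q := by
  simp [par]

lemma par_reverse (c : Sym2 V → C) {u v : V} (p : G.Walk u v) :
    par c p.reverse = par c p := by
  simp [par, List.sum_reverse]

lemma par_nil (c : Sym2 V → C) {u : V} : par c (SimpleGraph.Walk.nil : G.Walk u u) = 0 := by
  simp [par]

lemma par_toWalk (c : Sym2 V → C) {u v : V} (h : G.Adj u v) :
    par c h.toWalk = Finsupp.single (c s(u, v)) 1 := by
  simp [par, SimpleGraph.Adj.toWalk]

end walks

/-- The `l`th distance power of the path with vertices `0, …, n - 1`. -/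
def pathPower (n l : ℕ) : SimpleGraph (Fin n) where
  Adj i j := i ≠ j ∧ (i : ℕ) ≤ j + l ∧ (j : ℕ) ≤ i + l
  symm := ⟨fun _ _ h => ⟨h.1.symm, h.2.2, h.2.1⟩⟩
  loopless := ⟨fun _ h => h.1 rfl⟩

lemma exists_walk {n l : ℕ} (hl : 1 ≤ l) (hn : 0 < n) :
    ∀ (i : ℕ) (hi : i < n), Nonempty ((pathPower n l).Walk ⟨0, hn⟩ ⟨i, hi⟩) := by
  intro i
  induction i with
  | zero => intro _; exact ⟨SimpleGraph.Walk.nil⟩
  | succ i ih =>
    intro hi
    obtain ⟨w⟩ := ih (by omega)
    have h : (pathPower n l).Adj ⟨i, by omega⟩ ⟨i + 1, hi⟩ := by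
      refine ⟨?_, ?_, ?_⟩
      · intro h
        simp at h
      · simp; omega
      · simp; omega
    exact ⟨w.append h.toWalk⟩

lemma pow_clog_lt {n : ℕ} (hn : 0 < n) : 2 ^ (Nat.clog 2 n) < 2 * n := by
  rcases Nat.eq_or_lt_of_le (show 1 ≤ n from hn) with h | h
  · rw [← h]
    simp
  · have h1 := Nat.pow_pred_clog_lt_self (b := 2) (by norm_num) h
    have h2 : 0 < Nat.clog 2 n := Nat.clog_pos (by norm_num) h
    obtain ⟨m, hm⟩ : ∃ m, Nat.clog 2 n = m + 1 := ⟨Nat.clog 2 n - 1, by omega⟩
    rw [hm] at h1 ⊢
    simp only [Nat.pred_succ, Nat.add_sub_cancel, Nat.pred_eq_sub_one] at h1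
    rw [pow_succ]
    omega

/-- **Lower bound**: every spec of the path power uses at least `F` colours. -/
theorem lower {C : Type*} {n l : ℕ} (hn : 0 < n) (hl : 1 ≤ l) (c : Sym2 (Fin n) → C)
    (hc : IsSpec (pathPower n l) c) : F l (Nat.clog 2 n) ≤ numColours (pathPower n l) c := by
  classical
  set G := pathPower n l with hG
  -- the parity vectors of the closed walks at `0`
  let L : AddSubgroup (C →₀ ZMod 2) :=
    { carrier := {x | ∃ p : G.Walk ⟨0, hn⟩ ⟨0, hn⟩, par c p = x}
      zero_mem' := ⟨SimpleGraph.Walk.nil, par_nil c⟩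
      add_mem' := by
        rintro x y ⟨p, rfl⟩ ⟨q, rfl⟩
        exact ⟨p.append q, par_append c p q⟩
      neg_mem' := by
        rintro x ⟨p, rfl⟩
        refine ⟨p, ?_⟩
        have := add_self (par c p)
        exact eq_neg_of_add_eq_zero_left this }
  let W : Submodule (ZMod 2) (C →₀ ZMod 2) := AddSubgroup.toZModSubmodule 2 L
  have hW : ∀ x, x ∈ W ↔ ∃ p : G.Walk ⟨0, hn⟩ ⟨0, hn⟩, par c p = x := fun x => Iff.rfl
  let w : ∀ (i : ℕ) (hi : i < n), G.Walk ⟨0, hn⟩ ⟨i, hi⟩ := fun i hi =>
    (exists_walk (n := n) (l := l) hl hn i hi).some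
  let a : ℕ → (C →₀ ZMod 2) ⧸ W := fun i => if h : i < n then W.mkQ (par c (w i h)) else 0
  have ha : ∀ i (h : i < n), a i = W.mkQ (par c (w i h)) := by
    intro i h
    simp only [a, dif_pos h]
  have hinj : ∀ i j, i < n → j < n → a i = a j → i = j := by
    intro i j hi hj h
    rw [ha i hi, ha j hj, ← sub_eq_zero, ← map_sub, ← LinearMap.mem_ker, Submodule.ker_mkQ,
      hW] at h
    obtain ⟨p, hp⟩ := h
    have hz : ParityWalk c (((w i hi).reverse.append p).append (w j hj)) := by
      rw [parityWalk_iff, par_append, par_append, par_reverse, hp]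
      have := add_self (par c (w i hi))
      calc par c (w i hi) + (par c (w i hi) - par c (w j hj)) + par c (w j hj)
          = par c (w i hi) + par c (w i hi) := by abel
        _ = 0 := this
    have := hc _ _ _ hz
    simpa using this
  have hmain := main' _ n l (Nat.clog 2 n) a (fun i j hij hj _ h => by
    have := hinj i j (by omega) hj h
    omega) (fun S hS => by
    have h1 : n ≤ S.card := by
      rw [← card_range n]
      apply card_le_card_of_injOn a
      · intro i hi
        simp only [coe_range, Set.mem_Iio] at hi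
        exact hS i hi
      · intro i hi j hj h
        simp only [coe_range, Set.mem_Iio] at hi hj
        exact hinj i j hi hj h
    have := pow_clog_lt hn
    omega)
  refine hmain.trans ?_
  have hfin : (c '' G.edgeSet).Finite := (Set.toFinite _).image _
  unfold numColours
  rw [← Set.ncard_coe_finset]
  have hsub : ((D n l a : Finset _) : Set ((C →₀ ZMod 2) ⧸ W)) ⊆
      (fun x => W.mkQ (Finsupp.single x 1)) '' (c '' G.edgeSet) := by
    intro x hx
    rw [mem_coe, mem_D] at hx
    obtain ⟨i, j, hij, hj, hjl, rfl⟩ := hx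
    have hi : i < n := by omega
    have hadj : G.Adj ⟨i, hi⟩ ⟨j, hj⟩ := by
      refine ⟨?_, ?_, ?_⟩
      · intro h
        simp at h
        omega
      · simp; omega
      · simpa using hjl
    refine ⟨c s(⟨i, hi⟩, ⟨j, hj⟩), ⟨_, (SimpleGraph.mem_edgeSet G).mpr hadj, rfl⟩, ?_⟩
    simp only []
    rw [ha i hi, ha j hj, ← map_add, ← sub_eq_zero, ← map_sub, ← LinearMap.mem_ker,
      Submodule.ker_mkQ, hW]
    refine ⟨((w i hi).append hadj.toWalk).append (w j hj).reverse, ?_⟩
    rw [par_append, par_append, par_reverse, par_toWalk]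
    have h1 := add_self (par c (w i hi))
    have h2 := add_self (par c (w j hj))
    have h3 : par c (w i hi) = - par c (w i hi) := eq_neg_of_add_eq_zero_left h1
    have h4 : par c (w j hj) = - par c (w j hj) := eq_neg_of_add_eq_zero_left h2
    calc par c (w i hi) + Finsupp.single (c s(⟨i, hi⟩, ⟨j, hj⟩)) 1 + par c (w j hj)
        = - par c (w i hi) + Finsupp.single (c s(⟨i, hi⟩, ⟨j, hj⟩)) 1 + - par c (w j hj) := by
          rw [← h3, ← h4]
      _ = _ := by abel
  calc (↑(D n l a) : Set ((C →₀ ZMod 2) ⧸ W)).ncard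
      ≤ ((fun x => W.mkQ (Finsupp.single x 1)) '' (c '' G.edgeSet)).ncard :=
        Set.ncard_le_ncard hsub (hfin.image _)
    _ ≤ (c '' G.edgeSet).ncard := Set.ncard_image_le hfin

/-- The Gray-code colouring `φ(v_i v_j) = ∑_{t=i+1}^{j} e_{c_t}` for `i < j`. -/
noncomputable def grayColouring (n : ℕ) : Sym2 (Fin n) → (ℕ →₀ ZMod 2) :=
  Sym2.lift ⟨fun i j => ∑ t ∈ Ioc (min (i : ℕ) j) (max (i : ℕ) j),
    Finsupp.single (grayIndex t) 1, fun i j => by simp only [min_comm, max_comm]⟩

lemma sum_Ioc (i j : ℕ) (h : i ≤ j) :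
    gray i + ∑ t ∈ Ioc i j, Finsupp.single (grayIndex t) (1 : ZMod 2) = gray j := by
  induction j, h using Nat.le_induction with
  | base => simp
  | succ j hj ih =>
    rw [gray_succ, ← ih]
    have : Ioc i (j + 1) = insert (j + 1) (Ioc i j) := by
      ext x; simp only [mem_Ioc, mem_insert]; omega
    rw [this, sum_insert (by simp)]
    abel

lemma grayColouring_eq {n : ℕ} (i j : Fin n) :
    grayColouring n s(i, j) = gray i + gray j := by
  unfold grayColouring
  rw [Sym2.lift_mk]
  rcases le_total (i : ℕ) j with h | h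
  · simp only [min_eq_left h, max_eq_right h]
    rw [← sum_Ioc i j h]
    have := add_self (gray i)
    rw [← add_assoc, this, zero_add]
  · simp only [min_eq_right h, max_eq_left h]
    rw [← sum_Ioc j i h]
    have := add_self (gray j)
    rw [add_right_comm, this, zero_add]

lemma sum_gray {n l : ℕ} {u v : Fin n} (p : (pathPower n l).Walk u v) :
    (p.edges.map (grayColouring n)).sum = gray u + gray v := by
  induction p with
  | nil => simp [add_self]
  | @cons u v w h p ih =>
    rw [SimpleGraph.Walk.edges_cons, List.map_cons, List.sum_cons, ih, grayColouring_eq]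
    have := add_self (gray v)
    calc gray (u : ℕ) + gray (v : ℕ) + (gray (v : ℕ) + gray (w : ℕ))
        = gray u + gray w + (gray (v : ℕ) + gray (v : ℕ)) := by abel
      _ = _ := by rw [this, add_zero]

/-- `φ` is a spec. -/
theorem gray_isSpec (n l : ℕ) : IsSpec (pathPower n l) (grayColouring n) := by
  intro u v p hp
  rw [parityWalk_iff] at hp
  have h := congrArg (Finsupp.linearCombination (ZMod 2)
    (id : (ℕ →₀ ZMod 2) → (ℕ →₀ ZMod 2))) hp
  unfold par at h
  rw [map_zero, map_list_sum, List.map_map] at h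
  have h2 : ((Finsupp.linearCombination (ZMod 2) (id : (ℕ →₀ ZMod 2) → (ℕ →₀ ZMod 2))) ∘
      (fun x => Finsupp.single x (1 : ZMod 2))) = id := by
    funext x
    simp
  rw [h2, List.map_id, sum_gray] at h
  have h3 : gray (u : ℕ) = gray (v : ℕ) := by
    have := add_self (gray (v : ℕ))
    calc gray (u : ℕ) = gray u + (gray (v : ℕ) + gray (v : ℕ)) := by rw [this, add_zero]
      _ = (gray u + gray v) + gray v := by abel
      _ = gray v := by rw [h, zero_add]
  exact Fin.ext (gray_injective h3)

lemma numColours_gray_le (n l : ℕ) :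
    numColours (pathPower n l) (grayColouring n) ≤ F l (Nat.clog 2 n) := by
  classical
  refine le_trans ?_ (card_D_gray n l)
  unfold numColours
  rw [← Set.ncard_coe_finset]
  apply Set.ncard_le_ncard _ (Finset.finite_toSet _)
  rintro x ⟨e, he, rfl⟩
  induction e using Sym2.ind with
  | _ i j =>
    rw [SimpleGraph.mem_edgeSet] at he
    rw [mem_coe, mem_D, grayColouring_eq]
    obtain ⟨hne, h1, h2⟩ := he
    have hne' : (i : ℕ) ≠ j := fun h => hne (Fin.ext h)
    rcases lt_or_gt_of_ne hne' with h | h
    · exact ⟨i, j, h, j.2, h2, rfl⟩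
    · exact ⟨j, i, h, i.2, h1, add_comm _ _⟩

end Q116.PP
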